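import Pool.Agent.K1H82.KA.Fin
import Pool.Agent.K1H82.KR.Fin

/-!
# Varieties birational to quotients of products of simple abelian varieties: definitions
-/

set_option autoImplicit false

open MvPolynomial Pool.Agent.TH954.X Pool.Agent.K1H82.KM
open Pool.Agent.K1H82.KQ (PtB GalK cjg OnX sg)
open Pool.Agent.K1H82.KA (PtsB ImgP GActP ln ln_mul ln_one apP apP_mul apP_one trP_mul trP_one sgP
  val_sgP mapV_up cenP ln_cen sum_orbit RP orb_fin)
open Pool.Agent.K1H82.KR (Off)

namespace Pool.Agent.K1H82.KB

/-- some form in `Fam` does not vanish at `u` -/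
def DefP {K : Type} [Field K] {n r N : ℕ} (Fam : Finset (Fin N → MvPolynomial (Fin r × Fin n) K))
    {F : Type} [Field F] [Algebra K F] (u : Fin r → Fin n → F) : Prop :=
  ∃ C ∈ Fam, ∃ c, ev (C c) u ≠ 0

/-- A projective variety `X ⊆ ℙ ^ (N - 1)` over `K` (homogeneous equations `eqX`), a closed subset
`W` of it (homogeneous equations `eqW`) and a rational map over `K` from the product of the `A b` to
`X`, given by the tuples of multihomogeneous forms in `Fam` (and defined where one of these forms is
not zero), the image of which contains the complement of `W`. -/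
structure RMapP {K : Type} [Field K] {n r : ℕ} (A : Fin r → AbVar K n) (N : ℕ) where
  eqX : Set (MvPolynomial (Fin N) K)
  homX : ∀ g ∈ eqX, ∃ d, g.IsHomogeneous d
  eqW : Set (MvPolynomial (Fin N) K)
  homW : ∀ g ∈ eqW, ∃ d, g.IsHomogeneous d
  Fam : Finset (Fin N → MvPolynomial (Fin r × Fin n) K)
  d : Fin r → ℕ
  Fam_hom : ∀ C ∈ Fam, ∀ c, MH d (C c)
  total : ∀ P : PtsB A, DefP Fam (crds (A := A) P) → ∃ x, OnX eqX x ∧ ImgP Fam P x
  surj : ∀ x, OnX eqX x → Off eqW x → ∃ P : PtsB A, ImgP Fam P x

/-- The fibres of the rational map over the points over the algebraic closure outside `W` are the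
orbits of `G`: the complement of `W` is the quotient by `G` of an open subset of the product. -/
def IsQuotRP {K : Type} [Field K] {n r N : ℕ} {A : Fin r → AbVar K n} {G : Type} [Group G]
    (X : RMapP A N) (T : GActP A G) : Prop :=
  ∀ (P Q : PtsB A) (x : Fin N → AlgebraicClosure K), ImgP X.Fam P x → Off X.eqW x →
    (ImgP X.Fam Q x ↔ ∃ g : G, ∀ b, Q b = T.lin g b (P b) + T.tr g b)

/-- The set of the translation parts of the elements of `G` is stable under the Galois group. -/
def GalSt {K : Type} [Field K] {n r : ℕ} {A : Fin r → AbVar K n} {G : Type} [Group G]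
    (T : GActP A G) : Prop :=
  ∀ (σ : GalK K) (g : G), ∃ g' : G, ∀ b, cjg (A b) σ (T.tr g b) = T.tr g' b

section act

variable {K : Type} [Field K] {n r N : ℕ} {A : Fin r → AbVar K n} {G : Type} [Group G]

lemma fibR {X : RMapP A N} {T : GActP A G} (h : IsQuotRP X T)
    (P Q : Pts A (AlgebraicClosure K)) (x : Fin N → AlgebraicClosure K)
    (hx : Val X.Fam (crds P) x) (ho : Off X.eqW x) :
    Val X.Fam (crds Q) x ↔ ∃ g : G, Q = apP T g P := by
  refine (h P Q x hx ho).trans ⟨?_, ?_⟩
  · rintro ⟨g, hg⟩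
    exact ⟨g, funext hg⟩
  · rintro ⟨g, rfl⟩
    exact ⟨g, fun b => rfl⟩

/-- the conjugates of a point with rational image -/
lemma conjR {X : RMapP A N} {T : GActP A G} (h : IsQuotRP X T)
    {P : Pts A (AlgebraicClosure K)} {y : Fin N → K} (hy : Val X.Fam (crds P) (up y))
    (ho : Off X.eqW (up y))
    (σ : AlgebraicClosure K ≃ₐ[K] AlgebraicClosure K) : ∃ g, sgP σ P = apP T g P := by
  have h1 := val_sgP hy σ
  rw [mapV_up] at h1
  exact (fibR h P _ _ hy ho).1 h1

section center

variable [Fintype G]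

open Classical in
lemma sg_cenR {T : GActP A G} (h : GalSt T)
    (σ : AlgebraicClosure K ≃ₐ[K] AlgebraicClosure K) (b : Fin r) :
    sg (A b) σ (cenP T b) = cenP T b := by
  obtain ⟨s, hs⟩ := sum_orbit T
  have hmaps : ∀ q ∈ Finset.univ.image T.tr, sgP σ q ∈ Finset.univ.image T.tr := by
    intro q hq
    obtain ⟨g, -, hg⟩ := Finset.mem_image.1 hq
    obtain ⟨g', hg'⟩ := h σ g
    rw [Finset.mem_image]
    refine ⟨g', Finset.mem_univ _, ?_⟩
    rw [← hg]
    funext b
    exact (hg' b).symm
  have hinj : Function.Injective (sgP (A := A) σ) := by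
    intro P Q hPQ
    funext b
    exact mapPt_inj (A b) σ.toAlgHom (congrFun hPQ b)
  have h1 : cenP T b = s • ∑ q ∈ Finset.univ.image T.tr, q b := hs b (fun q => q b)
  rw [h1, map_nsmul, map_sum]
  congr 1
  have h2 : (Finset.univ.image T.tr).image (sgP σ) = Finset.univ.image T.tr := by
    refine Finset.eq_of_subset_of_card_le ?_ ?_
    · intro q hq
      obtain ⟨q', hq', rfl⟩ := Finset.mem_image.1 hq
      exact hmaps q' hq'
    · rw [Finset.card_image_of_injective _ hinj]
  conv_rhs => rw [← h2]
  rw [Finset.sum_image (fun q _ q' _ e => hinj e)]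
  rfl

lemma sg_RR {T : GActP A G} (h : GalSt T)
    {P : Pts A (AlgebraicClosure K)} {σ : AlgebraicClosure K ≃ₐ[K] AlgebraicClosure K} {g : G}
    (hg : sgP σ P = apP T g P) (b : Fin r) : sg (A b) σ (RP T P b) = ln T g b (RP T P b) := by
  have h1 : sg (A b) σ (P b) = ln T g b (P b) + T.tr g b := congrFun hg b
  unfold RP
  rw [map_sub, map_nsmul, sg_cenR h, h1, map_sub, map_nsmul, ln_cen, smul_add]
  abel

end center

end act

end Pool.Agent.K1H82.KB
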