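import Pool.Agent.K1H82.KB.Loc
import Pool.Agent.K1H82.KR.St

/-!
# Finiteness of the set of the local ideals
-/

set_option autoImplicit false
set_option linter.unusedSectionVars false

open MvPolynomial Pool.Agent.TH954.X Pool.Agent.K1H82.KM Filter Topology
open Pool.Agent.K1H82.KQ (PtB GalK cjg OnX sg torB)
open Pool.Agent.K1H82.KA (PtsB ImgP GActP ln ln_mul ln_one apP apP_mul apP_one trP_mul trP_one sgP
  val_sgP mapV_up cenP ln_cen sum_orbit RP orb_fin)
open Pool.Agent.K1H82.KR (Off off_up LocalIdealOff LocalIdealsOff off_univ RatPts)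

namespace Pool.Agent.K1H82.KB

variable {K : Type} [Field K] {n r N : ℕ} {A : Fin r → AbVar K n} {G : Type} [Group G]

lemma ZIP_congr (X : RMapP A N) {P P' : Pts A (AlgebraicClosure K)} {J : Set (Fin r)}
    (h : ∀ b, b ∉ J → P' b = P b) : ZIP X P' J = ZIP X P J := by
  ext f
  constructor
  · intro hf Q z hQ
    exact hf Q z (fun b hb => (hQ b hb).trans (h b hb).symm)
  · intro hf Q z hQ
    exact hf Q z (fun b hb => (hQ b hb).trans (h b hb))

section fin

variable [Fintype G]

/-- the ideals which occur -/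
def TypP (X : RMapP A N) (T : GActP A G) : Set (Set (MvPolynomial (Fin N) K)) :=
  {I | ∃ (P : Pts A (AlgebraicClosure K)) (y : Fin N → K), Val X.Fam (crds P) (up y) ∧
    Off X.eqW (up y) ∧ I = ZIP X P (NT (RP T P))}

theorem typP_fin [NumberField K] {X : RMapP A N} {T : GActP A G} (h : IsQuotRP X T) :
    (TypP X T).Finite := by
  classical
  choose c hc using fun b => (A b).div (AlgebraicClosure K) (cenP T b) (Fintype.card G)
    Fintype.card_pos
  have hc' : ∀ b, Fintype.card G • (c b : (A b).Pt (AlgebraicClosure K)) = cenP T b := hc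
  have hTB := fun b => torB (A b) (Fintype.card G * (orb_fin (c b)).toFinset.card)
  have hS : ∀ b, (({0} : Set ((A b).Pt (AlgebraicClosure K))) ∪ (fun w => c b + w) ''
      {w : (A b).Pt (AlgebraicClosure K) | (∃ k : ℕ, 0 < k ∧ k • w = 0) ∧
        ∃ s : Finset ((A b).Pt (AlgebraicClosure K)),
          s.card ≤ Fintype.card G * (orb_fin (c b)).toFinset.card ∧
            ∀ σ, sg (A b) σ w ∈ s}).Finite := fun b =>
    (Set.finite_singleton _).union ((hTB b).image _)
  refine (Set.Finite.biUnion (Set.toFinite (Set.univ : Set (Set (Fin r)))) (fun J _ =>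
    (Set.Finite.pi hS).image (fun P => ZIP X P J))).subset ?_
  rintro _ ⟨P, y, hy, ho, rfl⟩
  refine Set.mem_biUnion (Set.mem_univ (NT (RP T P)))
    ⟨fun b => if b ∈ NT (RP T P) then 0 else P b, ?_, ZIP_congr X (fun b hb => if_neg hb)⟩
  rw [Set.mem_pi]
  intro b _
  by_cases hb : b ∈ NT (RP T P)
  · left
    exact if_pos hb
  · right
    refine ⟨P b - c b, ⟨?_, ?_⟩, ?_⟩
    · have h3 := hb
      simp only [NT, Set.mem_ofPred_eq, not_forall, not_not] at h3
      obtain ⟨m, hm, hm'⟩ := h3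
      refine ⟨m.natAbs * Fintype.card G, Nat.mul_pos (Int.natAbs_pos.2 hm) Fintype.card_pos, ?_⟩
      rw [mul_smul, smul_sub, hc']
      change m.natAbs • RP T P b = 0
      rcases Int.natAbs_eq m with h4 | h4
      · rw [h4, natCast_zsmul] at hm'
        exact hm'
      · rw [h4, neg_smul, natCast_zsmul, neg_eq_zero] at hm'
        exact hm'
    · refine ⟨(Finset.univ ×ˢ (orb_fin (c b)).toFinset).image
        (fun p : G × (A b).Pt (AlgebraicClosure K) => ln T p.1 b (P b) + T.tr p.1 b - p.2),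
        ?_, fun σ => ?_⟩
      · refine Finset.card_image_le.trans ?_
        rw [Finset.card_product, Finset.card_univ]
      · obtain ⟨g, hg⟩ := conjR h hy ho σ
        rw [Finset.mem_image]
        refine ⟨(g, sg (A b) σ (c b)), ?_, ?_⟩
        · rw [Finset.mem_product]
          exact ⟨Finset.mem_univ _, (orb_fin (c b)).mem_toFinset.2 ⟨σ, rfl⟩⟩
        · have h5 : sg (A b) σ (P b) = ln T g b (P b) + T.tr g b := congrFun hg b
          rw [map_sub, h5]
    · change c b + (P b - c b) = if b ∈ NT (RP T P) then 0 else P b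
      rw [if_neg hb, add_sub_cancel]

theorem mainR [NumberField K] (hA : ∀ b, GeomSimple (A b)) {X : RMapP A N} {T : GActP A G}
    (h : IsQuotRP X T) (hG : GalSt T) {L : Type} [NontriviallyNormedField L] [CompleteSpace L]
    (σ : K →+* L) (hσ : DenseRange σ) : (LocalIdealsOff X.eqX X.eqW σ).Finite := by
  refine (((typP_fin h).powerset).image (fun S => {f | ∀ I ∈ S, f ∈ I})).subset ?_
  rintro _ ⟨x, hx0, hx, rfl⟩
  -- the types which occur in every neighbourhood
  set S : Set (Set (MvPolynomial (Fin N) K)) := {I | I ∈ TypP X T ∧ ∀ U ∈ 𝓝 x,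
    ∃ (P : Pts A (AlgebraicClosure K)) (y : Fin N → K), Val X.Fam (crds P) (up y) ∧
      Off X.eqW (up y) ∧
      (∃ c : L, c ≠ 0 ∧ (fun i => c * σ (y i)) ∈ U) ∧ I = ZIP X P (NT (RP T P))} with hS
  refine ⟨S, fun I hI => hI.1, ?_⟩
  ext f
  constructor
  · intro hf
    have hU : ∀ I ∈ TypP X T, ∃ U ∈ 𝓝 x, I ∉ S →
        ¬ ∃ (P : Pts A (AlgebraicClosure K)) (y : Fin N → K), Val X.Fam (crds P) (up y) ∧
          Off X.eqW (up y) ∧
          (∃ c : L, c ≠ 0 ∧ (fun i => c * σ (y i)) ∈ U) ∧ I = ZIP X P (NT (RP T P)) := by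
      intro I hI
      by_cases hIS : I ∈ S
      · exact ⟨Set.univ, univ_mem, fun h => absurd hIS h⟩
      · have h1 : ¬ ∀ U ∈ 𝓝 x, ∃ (P : Pts A (AlgebraicClosure K)) (y : Fin N → K),
            Val X.Fam (crds P) (up y) ∧ Off X.eqW (up y) ∧
              (∃ c : L, c ≠ 0 ∧ (fun i => c * σ (y i)) ∈ U) ∧
              I = ZIP X P (NT (RP T P)) := fun h => hIS ⟨hI, h⟩
        simp only [not_forall] at h1
        obtain ⟨U, hU, hU'⟩ := h1
        exact ⟨U, hU, fun _ => hU'⟩
    choose! U hU hUI using hU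
    refine ⟨⋂ I ∈ TypP X T, U I, (Filter.biInter_mem (typP_fin h)).2 hU, ?_⟩
    intro y hy0 hye hyo hyU a
    obtain ⟨c, hc, hcU⟩ := hyU
    have hup0 : up y ≠ 0 := by
      intro h0
      apply hy0
      funext i
      have := congrFun h0 i
      exact (map_eq_zero_iff _ (algebraMap K (AlgebraicClosure K)).injective).1 this
    have ho : Off X.eqW (up y) := off_up.2 hyo
    obtain ⟨P, hP⟩ := X.surj (up y) ⟨hup0, fun g hg => (eval_up_iff y g).2 (hye g hg)⟩ ho
    have hT : ZIP X P (NT (RP T P)) ∈ TypP X T := ⟨P, y, hP, ho, rfl⟩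
    have hIS : ZIP X P (NT (RP T P)) ∈ S := by
      by_contra hIS
      exact hUI _ hT hIS ⟨P, y, hP, ho, ⟨c, hc, Set.mem_iInter₂.1 hcU _ hT⟩, rfl⟩
    have h2 := hf _ hIS P (up y) (fun b _ => rfl) hP
      (algebraMap K (AlgebraicClosure K) a)
    have h3 : algebraMap K (AlgebraicClosure K) a • up y = up (a • y) := by
      funext i
      change _ * algebraMap K (AlgebraicClosure K) (y i) =
        algebraMap K (AlgebraicClosure K) (a * y i)
      rw [map_mul]
    rw [h3] at h2
    exact (eval_up_iff _ _).1 h2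
  · rintro ⟨U, hU, hf⟩ I ⟨hI, hI'⟩
    obtain ⟨V, hVU, hV, hxV⟩ := mem_nhds_iff.1 hU
    have hV0 : IsOpen (V ∩ {v | v ≠ 0}) := hV.inter isOpen_ne
    obtain ⟨P, y, hy, ho, ⟨c, hc, hcV⟩, rfl⟩ := hI' (V ∩ {v | v ≠ 0})
      (hV0.mem_nhds ⟨hxV, hx0⟩)
    exact loc_mainR hA h hG σ hσ f hV0 (fun h => h.2 rfl)
      (fun y hy0 hye hyo ⟨c, hc, hcU⟩ a => hf y hy0 hye hyo ⟨c, hc, hVU hcU.1⟩ a) P y hy ho hcV

end fin

/-- The complement of a closed subset in a projective variety in `ℙ ^ (N - 1)` which is the quotient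
of an open subset of a product of geometrically simple abelian varieties over `K` by a finite group
which acts on every factor. -/
structure PieceP (K : Type) [Field K] (N : ℕ) where
  n : ℕ
  r : ℕ
  A : Fin r → AbVar K n
  simple : ∀ b, GeomSimple (A b)
  G : Type
  [grp : Group G]
  [fin : Finite G]
  T : GActP A G
  gal : GalSt T
  X : RMapP A N
  quot : IsQuotRP X T

attribute [instance] PieceP.grp PieceP.fin

/-- The sets of rational points which are covered by finitely many pieces. -/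
theorem coverP [NumberField K] {ι : Type} [Finite ι] (p : ι → PieceP K N)
    {eqX eqW : Set (MvPolynomial (Fin N) K)}
    (h : ∀ y, y ∈ RatPts eqX eqW ↔ ∃ i, y ∈ RatPts (p i).X.eqX (p i).X.eqW)
    {L : Type} [NontriviallyNormedField L] [CompleteSpace L] (σ : K →+* L) (hσ : DenseRange σ) :
    (LocalIdealsOff eqX eqW σ).Finite := by
  classical
  have h1 : ∀ i, (LocalIdealsOff (p i).X.eqX (p i).X.eqW σ ∪ {Set.univ}).Finite := fun i => by
    have := Fintype.ofFinite (p i).G
    exact (mainR (p i).simple (p i).quot (p i).gal σ hσ).union (Set.finite_singleton _)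
  refine ((Set.Finite.pi' h1).image (fun J => ⋂ i, J i)).subset ?_
  rintro _ ⟨x, hx0, -, rfl⟩
  refine ⟨fun i => LocalIdealOff (p i).X.eqX (p i).X.eqW σ x,
    fun i => off_univ (p i).X.homX σ hx0, ?_⟩
  ext f
  simp only [Set.mem_iInter]
  constructor
  · intro hf
    choose U hU hf using hf
    refine ⟨⋂ i, U i, (Filter.iInter_mem).2 hU, fun y hy he ho hc a => ?_⟩
    obtain ⟨i, hi⟩ := (h y).1 ⟨hy, he, ho⟩
    obtain ⟨c, hc, hcU⟩ := hc
    exact hf i y hi.1 hi.2.1 hi.2.2 ⟨c, hc, Set.mem_iInter.1 hcU i⟩ a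
  · rintro ⟨U, hU, hf⟩ i
    refine ⟨U, hU, fun y hy he ho hc a => ?_⟩
    obtain ⟨-, he', ho'⟩ := (h y).2 ⟨i, hy, he, ho⟩
    exact hf y hy he' ho' hc a

end Pool.Agent.K1H82.KB
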