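import Pool.Agent.K1H82.KB.Defs

/-!
# The local Zariski closures
-/

set_option autoImplicit false
set_option linter.unusedSectionVars false

open MvPolynomial Pool.Agent.TH954.X Pool.Agent.K1H82.KM Filter Topology
open Pool.Agent.K1H82.KQ (PtB GalK cjg OnX sg)
open Pool.Agent.K1H82.KA (PtsB ImgP GActP ln ln_mul ln_one apP apP_mul apP_one trP_mul trP_one sgP
  val_sgP mapV_up cenP ln_cen sum_orbit RP orb_fin nearP exists_fieldL2 multi2)
open Pool.Agent.K1H82.KR (Off off_up)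

namespace Pool.Agent.K1H82.KB

section near

variable {K : Type} [Field K] {n r N : ℕ} {L E : Type} [NontriviallyNormedField L] [ProperSpace L]
  [Field E] [Algebra L E] [FiniteDimensional L E] [TopologicalSpace E] [IsModuleTopology L E]
  [Algebra K E] [Algebra K L] [IsScalarTower K L E]

include L in
/-- a form which does not vanish at `P` does not vanish at the points near `P` -/
theorem near3 {f : MvPolynomial (Fin r × Fin n) K} {δ : Fin r → ℕ} (hf : MH δ f)
    (A : Fin r → AbVar K n) (P : Pts A E) (h : ev f (crds P) ≠ 0) :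
    ∃ W : Fin r → Set (Fin n → E), (∀ b, W b ∈ 𝓝 (0 : (A b).Pt E).1) ∧
      ∀ R : Pts A E, (∀ b, Nr (W b) (R b).1) →
        ev f (crds (A := A) (fun b => P b + R b)) ≠ 0 := by
  have := topring L E
  obtain ⟨ℓ, hℓ⟩ := LinearMap.exists_leftInverse_of_injective (Algebra.linearMap L E)
    (LinearMap.ker_eq_bot.2 (algebraMap L E).injective)
  have hℓ1 : ∀ z : L, ℓ (algebraMap L E z) = z := fun z => LinearMap.congr_fun hℓ z
  have hℓc : Continuous ℓ := IsModuleTopology.continuous_of_linearMap ℓ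
  set s : E := ev f (crds P) with hs
  set Ψ : (Fin r → Fin n → E) → L := fun u => ℓ (s⁻¹ * ev f u) with hΨ
  have hΨc : Continuous Ψ := hℓc.comp (continuous_const.mul (cont_ev (L := L) f))
  have hΨ1 : Ψ (crds P) = 1 := by
    simp only [hΨ]
    rw [← hs, inv_mul_cancel₀ h, ← map_one (algebraMap L E), hℓ1]
  have h1 : Ψ ⁻¹' {z | z ≠ 0} ∈ 𝓝 (crds P) := hΨc.continuousAt.preimage_mem_nhds (by
    rw [hΨ1]
    exact isOpen_ne.mem_nhds one_ne_zero)
  obtain ⟨V, hV, hVU⟩ : ∃ V : Fin r → Set (Fin n → E), (∀ b, V b ∈ 𝓝 (crds P b)) ∧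
      ∀ u, (∀ b, u b ∈ V b) → u ∈ Ψ ⁻¹' {z | z ≠ 0} := by
    rw [nhds_pi, Filter.mem_pi] at h1
    obtain ⟨I, -, V, hV, h2⟩ := h1
    exact ⟨V, hV, fun u hu => h2 (fun b _ => hu b)⟩
  have h2 : ∀ b, ∃ W ∈ 𝓝 (0 : (A b).Pt E).1, ∀ Q : (A b).Pt E, Nr W Q.1 →
      Nr (V b) (P b + Q).1 := by
    intro b
    obtain ⟨W1, hW1, W2, hW2, h12⟩ := cont_add (L := L) (A b) (P b) 0 (W := V b) (by
      rw [add_zero]
      exact hV b)
    exact ⟨W2, hW2, fun Q hQ => h12 (P b) Q ⟨1, one_ne_zero, by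
      rw [one_smul]
      exact mem_of_mem_nhds hW1⟩ hQ⟩
  choose W hW hW' using h2
  refine ⟨W, hW, fun R hR h0 => ?_⟩
  choose t ht ht' using fun b => hW' b _ (hR b)
  have h4 : Ψ (fun b => t b • (P b + R b).1) ≠ 0 := hVU _ ht'
  apply h4
  have h7 := ev_smul hf t (crds (A := A) fun b => P b + R b)
  change ℓ (s⁻¹ * ev f (fun b => t b • crds (A := A) (fun b => P b + R b) b)) = 0
  rw [h7, h0, mul_zero, mul_zero, map_zero]

end near

section main

variable {K : Type} [Field K] {n r N : ℕ} {A : Fin r → AbVar K n} {G : Type} [Group G]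

/-- The images of the points `P + m R` are rational, if they are outside `W`. -/
theorem ratR [CharZero K] [Fintype G] {X : RMapP A N} {T : GActP A G} (h : IsQuotRP X T)
    (hG : GalSt T) (P : Pts A (AlgebraicClosure K)) (y : Fin N → K)
    (hy : Val X.Fam (crds P) (up y)) (ho : Off X.eqW (up y)) (m : Fin r → ℤ)
    (hd : DefP X.Fam (crds (A := A) (fun b => P b + m b • RP T P b)))
    (ho' : ∀ x, Val X.Fam (crds (A := A) (fun b => P b + m b • RP T P b)) x → Off X.eqW x) :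
    ∃ y' : Fin N → K, Normed y' ∧ (∀ g ∈ X.eqX, eval y' g = 0) ∧
      Val X.Fam (crds (A := A) (fun b => P b + m b • RP T P b)) (up y') := by
  obtain ⟨x, ⟨hx0, hxe⟩, hx⟩ := X.total (fun b => P b + m b • RP T P b) hd
  obtain ⟨s, x1, hs, hx1, rfl⟩ := exists_normed hx0
  have hxe1 : ∀ g ∈ X.eqX, aeval x1 g = 0 := by
    intro g hg
    obtain ⟨d, hd⟩ := X.homX g hg
    have h1 := hxe g hg
    rw [aeval_smul' hd] at h1
    exact (mul_eq_zero.1 h1).resolve_left (pow_ne_zero _ hs)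
  have hv1 : Val X.Fam (crds (A := A) (fun b => P b + m b • RP T P b)) x1 := by
    have h1 : Val X.Fam (crds (A := A) (fun b => P b + m b • RP T P b)) (s • x1) := hx
    have := h1.smul (inv_ne_zero hs)
    rwa [inv_smul_smul₀ hs] at this
  have hfix : ∀ φ : AlgebraicClosure K ≃ₐ[K] AlgebraicClosure K, ∀ c, φ (x1 c) = x1 c := by
    intro φ c
    obtain ⟨g, hg⟩ := conjR h hy ho φ
    have h4 : Val X.Fam (crds (sgP φ (fun b => P b + m b • RP T P b))) x1 := by
      refine (fibR h _ _ _ hv1 (ho' _ hv1)).2 ⟨g, ?_⟩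
      funext b
      change sg (A b) φ (P b + m b • RP T P b) =
        ln T g b (P b + m b • RP T P b) + T.tr g b
      have h5 : sg (A b) φ (P b) = ln T g b (P b) + T.tr g b := congrFun hg b
      rw [map_add, map_zsmul, sg_RR hG hg, h5, map_add, map_zsmul]
      abel
    have h5 := val_sgP hv1 φ
    obtain ⟨t, -, ht⟩ := h4.unique h5
    have h6 : mapV φ.toAlgHom x1 = x1 := normed_unique (Normed.mapV _ hx1) hx1 ht
    exact congrFun h6 c
  have hgal : IsGalois K (AlgebraicClosure K) := inferInstance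
  have hmem : ∀ c, ∃ z : K, algebraMap K (AlgebraicClosure K) z = x1 c := by
    intro c
    have := (InfiniteGalois.mem_range_algebraMap_iff_fixed (k := K) (K := AlgebraicClosure K)
      (x1 c)).2 (fun φ => hfix φ c)
    exact this
  choose y' hy' using hmem
  have hup : up y' = x1 := funext hy'
  refine ⟨y', ?_, fun g hg => ?_, ?_⟩
  · obtain ⟨i, hi, hj⟩ := hx1
    refine ⟨i, ?_, fun j hji => ?_⟩
    · apply (algebraMap K (AlgebraicClosure K)).injective
      rw [hy', hi, map_one]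
    · apply (algebraMap K (AlgebraicClosure K)).injective
      rw [hy', hj j hji, map_zero]
  · rw [← eval_up_iff, hup]
    exact hxe1 g hg
  · rw [hup]
    exact hv1

/-- the polynomials which vanish at the images of the points which agree with `P` outside `J` -/
def ZIP (X : RMapP A N) (P : Pts A (AlgebraicClosure K)) (J : Set (Fin r)) :
    Set (MvPolynomial (Fin N) K) :=
  {f | ∀ (Q : Pts A (AlgebraicClosure K)) (z : Fin N → AlgebraicClosure K),
    (∀ b, b ∉ J → Q b = P b) → Val X.Fam (crds Q) z → ∀ a : AlgebraicClosure K,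
      aeval (a • z) f = 0}

theorem loc_mainR [NumberField K] [Fintype G] (hA : ∀ b, GeomSimple (A b)) {X : RMapP A N}
    {T : GActP A G} (h : IsQuotRP X T) (hG : GalSt T) {L : Type}
    [NontriviallyNormedField L] [CompleteSpace L] (σ : K →+* L) (hσ : DenseRange σ)
    (f : MvPolynomial (Fin N) K) {U : Set (Fin N → L)} (hU : IsOpen U) (h0 : (0 : Fin N → L) ∉ U)
    (hf : ∀ y : Fin N → K, y ≠ 0 → (∀ g ∈ X.eqX, eval y g = 0) → (∃ h ∈ X.eqW, eval y h ≠ 0) →
      (∃ c : L, c ≠ 0 ∧ (fun i => c * σ (y i)) ∈ U) → ∀ a : K, eval (a • y) f = 0)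
    (P : Pts A (AlgebraicClosure K)) (y : Fin N → K) (hy : Val X.Fam (crds P) (up y))
    (ho : Off X.eqW (up y))
    {c0 : L} (hc0 : (fun i => c0 * σ (y i)) ∈ U) : f ∈ ZIP X P (NT (RP T P)) := by
  have hprop : ProperSpace L := W279.Tri.properSpace_of_denseRange σ hσ
  let _ : Algebra K L := σ.toAlgebra
  let φ : AlgebraicClosure K →ₐ[K] AlgebraicClosure L := IsAlgClosed.lift
  obtain ⟨E, hE, ⟨P', hP'⟩, ⟨R', hR'⟩⟩ := exists_fieldL2 φ P (RP T P)
  let _ : TopologicalSpace E := moduleTopology L E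
  have : IsModuleTopology L E := ⟨rfl⟩
  set ψ : E →ₐ[K] AlgebraicClosure L := E.val.restrictScalars K with hψ
  have hup : ∀ y : Fin N → K, mapV φ (up y) = mapV ψ (fun i => algebraMap K E (y i)) := by
    intro y
    funext i
    change φ (algebraMap K (AlgebraicClosure K) (y i)) = ψ (algebraMap K E (y i))
    rw [AlgHom.commutes, AlgHom.commutes]
  have hcr : ∀ (Q : Pts A (AlgebraicClosure K)) (Q' : Pts A E),
      (∀ b, mapPt (A b) ψ (Q' b) = mapPt (A b) φ (Q b)) →
      (fun j c => φ (crds Q j c)) = fun j c => ψ (crds Q' j c) := by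
    intro Q Q' hQ
    funext j c
    exact (congrArg (fun R : (A j).Pt (AlgebraicClosure L) => R.1 c) (hQ j)).symm
  have hval : ∀ (Q : Pts A (AlgebraicClosure K)) (Q' : Pts A E) (y : Fin N → K),
      (∀ b, mapPt (A b) ψ (Q' b) = mapPt (A b) φ (Q b)) → Val X.Fam (crds Q) (up y) →
      Val X.Fam (crds Q') (fun i => algebraMap K E (y i)) := by
    intro Q Q' y hQ hy
    refine Val.of_map ψ ?_
    have h1 := hy.map φ
    rw [hup, hcr Q Q' hQ] at h1
    exact h1
  have hnz : ∀ (Q : Pts A (AlgebraicClosure K)) (Q' : Pts A E)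
      (g : MvPolynomial (Fin r × Fin n) K),
      (∀ b, mapPt (A b) ψ (Q' b) = mapPt (A b) φ (Q b)) →
      (ev g (crds Q') ≠ 0 ↔ ev g (crds Q) ≠ 0) := by
    intro Q Q' g hQ
    have h3 : φ (ev g (crds Q)) = ψ (ev g (crds Q')) := by
      rw [← ev_map, ← ev_map, hcr Q Q' hQ]
    rw [not_iff_not, ← map_eq_zero_iff ψ ψ.toRingHom.injective, ← h3,
      map_eq_zero_iff φ φ.toRingHom.injective]
  obtain ⟨W, hW, hnear⟩ := nearP X.Fam_hom A P' y (hval P P' y hP' hy) hU h0 hc0
  -- the points near `P` have an image outside `W`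
  obtain ⟨C0, hC0, s0, hs0, hCs0⟩ := hy.exists_ne
  obtain ⟨g0, hg0, hg0'⟩ := ho
  obtain ⟨δ0, hδ0⟩ := X.homW g0 hg0
  obtain ⟨j0, hj0⟩ := Function.ne_iff.1 hy.ne_zero
  have hmul : ∀ u : Fin r → Fin n → AlgebraicClosure K, ev (C0 j0 * aeval C0 g0) u =
      ev (C0 j0) u * aeval (fun c => ev (C0 c) u) g0 := by
    intro u
    rw [← ev_aeval']
    unfold ev
    rw [map_mul]
  have hne0 : ev (C0 j0 * aeval C0 g0) (crds P) ≠ 0 := by
    rw [hmul, hCs0, aeval_smul' hδ0]
    refine mul_ne_zero ?_ (mul_ne_zero (pow_ne_zero _ hs0) hg0')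
    rw [congrFun hCs0 j0]
    exact mul_ne_zero hs0 hj0
  obtain ⟨W', hW', hnear'⟩ := near3 (L := L)
    (MH_mul (X.Fam_hom C0 hC0 j0) (MH_aeval hδ0 C0 (X.Fam_hom C0 hC0))) A P'
    ((hnz P P' _ hP').2 hne0)
  have key : ∀ k, ∀ C ∈ X.Fam, ∀ Q : Pts A (AlgebraicClosure K),
      (∀ b, b ∉ NT (RP T P) → Q b = P b) →
      ev (aeval C (homogeneousComponent k f)) (crds Q) = 0 := by
    intro k C hC Q hQ
    refine multi2 hA P (RP T P)
      (fun b => {U | ∃ W ∈ 𝓝 (0 : (A b).Pt E).1, U = {m : ℤ | Nr W (m • R' b).1}})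
      (fun b => isBas_nr (L := L) (A b) (R' b)) (fun b => {m | Nr (W b ∩ W' b) (m • R' b).1})
      (fun b => ⟨W b ∩ W' b, inter_mem (hW b) (hW' b), rfl⟩)
      (MH_aeval (homogeneousComponent_isHomogeneous k f) C (X.Fam_hom C hC)) (fun m hm => ?_) Q hQ
    have h1 : ∀ b, mapPt (A b) ψ (P' b + m b • R' b) =
        mapPt (A b) φ (P b + m b • RP T P b) := by
      intro b
      change mapH (A b) ψ (P' b + m b • R' b) = mapH (A b) φ (P b + m b • RP T P b)
      rw [map_add, map_add, map_zsmul, map_zsmul, mapH_apply, mapH_apply, mapH_apply,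
        mapH_apply, hP', hR']
    have hn := (hnz (fun b => P b + m b • RP T P b) (fun b => P' b + m b • R' b) _ h1).1
      (hnear' (fun b => m b • R' b) (fun b => (hm b).mono Set.inter_subset_right))
    rw [hmul] at hn
    have hoff : ∀ x, Val X.Fam (crds (A := A) (fun b => P b + m b • RP T P b)) x →
        Off X.eqW x := by
      intro x hx
      refine ⟨g0, hg0, fun h0 => right_ne_zero_of_mul hn ?_⟩
      obtain ⟨s, hs⟩ := hx.1 C0 hC0
      rw [hs, aeval_smul' hδ0, h0, mul_zero]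
    obtain ⟨y', hy', hy'e, hy'v⟩ := ratR h hG P y hy ⟨g0, hg0, hg0'⟩ m
      ⟨C0, hC0, j0, left_ne_zero_of_mul hn⟩ hoff
    obtain ⟨c, hc, hcU⟩ := hnear (fun b => m b • R' b)
      (fun b => (hm b).mono Set.inter_subset_left) y' (hval _ _ y' h1 hy'v)
    have h2 : eval y' (homogeneousComponent k f) = 0 :=
      hom_comp_zero (hf y' hy'.ne_zero hy'e (off_up.1 (hoff _ hy'v)) ⟨c, hc, hcU⟩) k
    obtain ⟨s, hs⟩ := hy'v.1 C hC
    rw [ev_aeval', hs, aeval_smul' (homogeneousComponent_isHomogeneous k f),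
      (eval_up_iff y' _).2 h2, mul_zero]
  rintro Q z hQ hz a
  refine aeval_of_comp (fun k => ?_) a
  obtain ⟨C, hC, s, hs, hCs⟩ := hz.exists_ne
  have h1 := key k C hC Q hQ
  rw [ev_aeval', hCs, aeval_smul' (homogeneousComponent_isHomogeneous k f)] at h1
  exact (mul_eq_zero.1 h1).resolve_left (pow_ne_zero _ hs)

end main

end Pool.Agent.K1H82.KB
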